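import Pool.Agent.D0H68.SD.Win

/-! The law of large numbers in short windows and the differences of the square roots. -/

set_option autoImplicit false

open MeasureTheory Filter Finset
open scoped Topology

namespace Pool.Agent.D0H68.SD

theorem logN : Tendsto (fun n : ℕ => Real.log (n : ℝ)) atTop atTop :=
  Real.tendsto_log_atTop.comp tendsto_natCast_atTop_atTop

/-- `C log x ≤ (log x) ^ (1 + ε)` -/
theorem pow_big (C ε : ℝ) (hε : 0 < ε) : ∀ᶠ x : ℕ in atTop, C * Real.log x ≤ (Real.log x) ^ (1 + ε) := by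
  have h1 : ∀ᶠ x : ℕ in atTop, C ≤ (Real.log x) ^ ε := logN.eventually ((tendsto_rpow_atTop hε).eventually_ge_atTop C)
  filter_upwards [h1, logN.eventually_gt_atTop 0] with x g1 g2
  rw [Real.rpow_add g2, Real.rpow_one, mul_comm]
  exact mul_le_mul_of_nonneg_left g1 g2.le

section

variable {Ω : Type} {m0 : MeasurableSpace Ω} {μ : Measure Ω} [IsProbabilityMeasure μ]
  {ℱ : Filtration ℕ m0} {S : ℕ → Set Ω}

open Classical in
/-- the number of chosen integers in `(x, x + L]` -/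
noncomputable def cnt (S : ℕ → Set Ω) (ω : Ω) (x L : ℕ) : ℕ := ((Ioc x (x + L)).filter (fun m => ω ∈ S m)).card

omit m0 in
theorem reindex (f : ℕ → ℝ) (x L : ℕ) : ∑ j ∈ range L, f (x + j + 1) = ∑ m ∈ Ioc x (x + L), f m := by
  induction L with
  | zero => simp
  | succ L ih =>
    rw [sum_range_succ, ih, ← add_assoc x L 1, sum_Ioc_succ_top (by omega)]

theorem cnt_eq (ω : Ω) (x L : ℕ) : ∑ j ∈ range L, In S (x + j + 1) ω = cnt S ω x L := by
  classical
  rw [reindex (fun m => In S m ω)]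
  unfold cnt
  rw [card_filter, Nat.cast_sum]
  refine sum_congr rfl fun m _ => ?_
  by_cases h : ω ∈ S m
  · rw [In_one h, if_pos h, Nat.cast_one]
  · rw [In_zero h, if_neg h, Nat.cast_zero]

/-- the sums of the conditional probabilities against the expected numbers: lower bound -/
theorem low_sum {ω : Ω} (hP : ∀ n, 0 ≤ Pr μ ℱ S n ω ∧ Pr μ ℱ S n ω ≤ 1) {z : ℕ → ℕ} {c : ℝ} (hc : 0 < c) {x L n0 : ℕ}
    (h : ∀ n, n0 ≤ n → Rough z (n + 1) → c * V (z (n + 1)) ≤ Pr μ ℱ S n ω * Real.log n) (hx : n0 ≤ x) (hx2 : 2 ≤ x) :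
    c * expd z x L ≤ ∑ j ∈ range L, Pr μ ℱ S (x + j) ω := by
  classical
  unfold expd
  have h1 : ∑ m ∈ (Ioc x (x + L)).filter (Rough z), V (z m) / Real.log m =
      ∑ j ∈ range L, (if Rough z (x + j + 1) then V (z (x + j + 1)) / Real.log ((x + j + 1 : ℕ) : ℝ) else 0) := by
    rw [sum_filter, reindex (fun m => if Rough z m then V (z m) / Real.log (m : ℝ) else 0)]
  rw [h1, mul_sum]
  refine sum_le_sum fun j _ => ?_
  split_ifs with hr
  · have h2 := h (x + j) (by omega) hr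
    have h3 : (1 : ℝ) < ((x + j : ℕ) : ℝ) := by exact_mod_cast (by omega : 1 < x + j)
    have h4 : 0 < Real.log ((x + j : ℕ) : ℝ) := Real.log_pos h3
    have h5 : Real.log ((x + j : ℕ) : ℝ) ≤ Real.log ((x + j + 1 : ℕ) : ℝ) := by
      apply Real.log_le_log (by linarith)
      push_cast; linarith
    have h6 : 0 ≤ V (z (x + j + 1)) := zero_le_one.trans (V_one _)
    calc c * (V (z (x + j + 1)) / Real.log ((x + j + 1 : ℕ) : ℝ))
        ≤ c * (V (z (x + j + 1)) / Real.log ((x + j : ℕ) : ℝ)) := by gcongr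
      _ = (c * V (z (x + j + 1))) / Real.log ((x + j : ℕ) : ℝ) := by ring
      _ ≤ Pr μ ℱ S (x + j) ω := by rw [div_le_iff₀ h4]; exact h2
  · rw [mul_zero]; exact (hP _).1

/-- **lower bound in all windows** -/
theorem low (hS : ∀ n, MeasurableSet[ℱ n] (S n)) (z : ℕ → ℕ)
    (h : ∀ᵐ ω ∂μ, ∃ c : ℝ, 0 < c ∧ ∀ᶠ n : ℕ in atTop, Rough z (n + 1) →
      c * V (z (n + 1)) ≤ Pr μ ℱ S n ω * Real.log n) :
    ∀ᵐ ω ∂μ, ∃ κ : ℝ, 0 < κ ∧ ∀ ε : ℝ, 0 < ε → ∀ᶠ x : ℕ in atTop, ∀ L : ℕ, L ≤ x →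
      (Real.log x) ^ (1 + ε) ≤ expd z x L → κ * expd z x L ≤ cnt S ω x L := by
  have hP : ∀ᵐ ω ∂μ, ∀ n, 0 ≤ Pr μ ℱ S n ω ∧ Pr μ ℱ S n ω ≤ 1 := ae_all_iff.2 fun n => Pr_bd hS n
  filter_upwards [window (μ := μ) (ℱ := ℱ) hS, hP, h] with ω h1 h2 h3
  obtain ⟨c, hc, h4⟩ := h3
  obtain ⟨n0, hn0⟩ := eventually_atTop.1 h4
  refine ⟨c / 4, by positivity, fun ε hε => ?_⟩
  filter_upwards [h1 1, pow_big (32 / c) ε hε, eventually_ge_atTop (n0 + 2), logN.eventually_gt_atTop 0]
    with x g1 g2 g3 g4 L hL hE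
  have k1 := g1 L hL
  rw [cnt_eq] at k1
  have k2 := low_sum h2 hc hn0 (x := x) (L := L) (by omega) (by omega)
  set P : ℝ := ∑ j ∈ range L, Pr μ ℱ S (x + j) ω with hPd
  have k3 := (abs_le.1 k1).1
  have k4 : 32 / c * Real.log x ≤ expd z x L := g2.trans hE
  have k5 : 32 * Real.log x ≤ c * expd z x L := by
    have := mul_le_mul_of_nonneg_left k4 hc.le
    calc 32 * Real.log x = c * (32 / c * Real.log x) := by field_simp
      _ ≤ _ := this
  push_cast at k3
  norm_num at k3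
  have k6 : (c / 4) * expd z x L = (c * expd z x L) / 4 := by ring
  rw [k6]
  linarith

/-- **law of large numbers in all windows** -/
theorem lln (hS : ∀ n, MeasurableSet[ℱ n] (S n)) (z : ℕ → ℕ) (hr : ∀ n, ¬ Rough z n → S n = ∅)
    (h : ∀ᵐ ω ∂μ, Tendsto (fun n : ℕ => Pr μ ℱ S n ω * Real.log n / V (z (n + 1)))
      (atTop ⊓ 𝓟 {n : ℕ | Rough z (n + 1)}) (𝓝 1)) :
    ∀ᵐ ω ∂μ, ∀ ε : ℝ, 0 < ε → ∀ᶠ x : ℕ in atTop, ∀ L : ℕ, L ≤ x →
      (Real.log x) ^ (1 + ε) ≤ expd z x L → |(cnt S ω x L : ℝ) - expd z x L| ≤ ε * expd z x L := by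
  classical
  have hP : ∀ᵐ ω ∂μ, ∀ n, 0 ≤ Pr μ ℱ S n ω ∧ Pr μ ℱ S n ω ≤ 1 := ae_all_iff.2 fun n => Pr_bd hS n
  have hP0 : ∀ᵐ ω ∂μ, ∀ n, ¬ Rough z (n + 1) → Pr μ ℱ S n ω = 0 := by
    refine ae_all_iff.2 fun n => ?_
    by_cases hn : Rough z (n + 1)
    · exact ae_of_all _ fun ω hcon => absurd hn hcon
    · have h1 : (μ[(S (n + 1)).indicator (fun _ => (1 : ℝ)) | ℱ n]) =ᵐ[μ] 0 := by
        rw [hr _ hn, Set.indicator_empty]
        have := condExp_zero (μ := μ) (m := ℱ n) (m₀ := m0) (E := ℝ)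
        exact Filter.EventuallyEq.of_eq this
      filter_upwards [h1] with ω hω _
      exact hω
  filter_upwards [window (μ := μ) (ℱ := ℱ) hS, hP, hP0, h] with ω h1 h2 h3 h4 ε hε
  set η : ℝ := min ε 1 / 8 with hη
  have hm : 0 < min ε 1 := lt_min hε one_pos
  have hη0 : 0 < η := by positivity
  have hη1 : η ≤ 1 / 8 := by rw [hη]; linarith [min_le_right ε 1]
  have hηε : 8 * η ≤ ε := by rw [hη]; linarith [min_le_left ε 1]
  obtain ⟨i, hi⟩ := exists_nat_one_div_lt hη0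
  have h5 : ∀ᶠ n : ℕ in atTop, Rough z (n + 1) → |Pr μ ℱ S n ω * Real.log n / V (z (n + 1)) - 1| < η := by
    have := h4.eventually (Metric.ball_mem_nhds (1 : ℝ) hη0)
    rw [eventually_inf_principal] at this
    exact this.mono fun n hn hrn => by simpa [Real.dist_eq] using hn hrn
  have h6 : ∀ᶠ n : ℕ in atTop, Real.log ((n + 1 : ℕ) : ℝ) ≤ (1 + η) * Real.log n := by
    have hl1 : ∀ᶠ n : ℕ in atTop, 1 / η ≤ Real.log n := logN.eventually_ge_atTop _
    filter_upwards [hl1, eventually_ge_atTop 2] with n g1 g2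
    have g3 : (2 : ℝ) ≤ n := by exact_mod_cast g2
    have g4 : Real.log ((n + 1 : ℕ) : ℝ) ≤ Real.log n + 1 := by
      have : Real.log ((n + 1 : ℕ) : ℝ) ≤ Real.log ((n : ℝ) * Real.exp 1) := by
        apply Real.log_le_log (by positivity)
        push_cast
        have := Real.add_one_le_exp (1 : ℝ)
        nlinarith
      rwa [Real.log_mul (by linarith) (Real.exp_pos _).ne', Real.log_exp] at this
    have g5 : 1 ≤ η * Real.log n := by
      have := mul_le_mul_of_nonneg_left g1 hη0.le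
      rwa [mul_one_div_cancel hη0.ne'] at this
    linarith
  obtain ⟨n0, hn0⟩ := eventually_atTop.1 (h5.and h6)
  filter_upwards [h1 i, pow_big (4 * (i + 1) / η) ε hε, eventually_ge_atTop (n0 + 2), logN.eventually_gt_atTop 0]
    with x g1 g2 g3 g4 L hL hE
  have k1 := g1 L hL
  rw [cnt_eq] at k1
  set P : ℝ := ∑ j ∈ range L, Pr μ ℱ S (x + j) ω with hPd
  set E : ℝ := expd z x L with hEd
  have hE0 : 0 ≤ E := expd_nonneg z x L
  have hE1 : E = ∑ j ∈ range L, (if Rough z (x + j + 1) then V (z (x + j + 1)) / Real.log ((x + j + 1 : ℕ) : ℝ) else 0) := by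
    rw [hEd]
    unfold expd
    rw [sum_filter, reindex (fun m => if Rough z m then V (z m) / Real.log (m : ℝ) else 0)]
  -- comparison of `P` and `E`
  have hPE : |P - E| ≤ 3 * η * E := by
    rw [hPd, hE1, ← sum_sub_distrib, mul_sum]
    refine (abs_sum_le_sum_abs _ _).trans (sum_le_sum fun j _ => ?_)
    split_ifs with hrj
    · obtain ⟨q1, q2⟩ := hn0 (x + j) (by omega)
      have q1' := q1 hrj
      have hV : 0 < V (z (x + j + 1)) := zero_lt_one.trans_le (V_one _)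
      have h3' : (1 : ℝ) < ((x + j : ℕ) : ℝ) := by exact_mod_cast (by omega : 1 < x + j)
      have hl : 0 < Real.log ((x + j : ℕ) : ℝ) := Real.log_pos h3'
      have hl' : Real.log ((x + j : ℕ) : ℝ) ≤ Real.log ((x + j + 1 : ℕ) : ℝ) := by
        apply Real.log_le_log (by linarith)
        push_cast; linarith
      set Vv : ℝ := V (z (x + j + 1)) with hVv
      set l : ℝ := Real.log ((x + j : ℕ) : ℝ) with hld
      set l' : ℝ := Real.log ((x + j + 1 : ℕ) : ℝ) with hld'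
      set p : ℝ := Pr μ ℱ S (x + j) ω with hp
      have hl'0 : 0 < l' := hl.trans_le hl'
      rw [abs_lt] at q1'
      have r1 : p * l < (1 + η) * Vv := by
        have := q1'.2
        have h7 : p * l / Vv < 1 + η := by linarith
        rwa [div_lt_iff₀ hV] at h7
      have r2 : (1 - η) * Vv < p * l := by
        have := q1'.1
        have h7 : 1 - η < p * l / Vv := by linarith
        rwa [lt_div_iff₀ hV] at h7
      have s1 : p * l' ≤ (1 + 3 * η) * Vv := by
        have hp0 : 0 ≤ p := (h2 _).1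
        calc p * l' ≤ p * ((1 + η) * l) := mul_le_mul_of_nonneg_left q2 hp0
          _ = (1 + η) * (p * l) := by ring
          _ ≤ (1 + η) * ((1 + η) * Vv) := mul_le_mul_of_nonneg_left r1.le (by linarith)
          _ ≤ (1 + 3 * η) * Vv := by nlinarith
      have s2 : (1 - 3 * η) * Vv ≤ p * l' := by
        have hp0 : 0 ≤ p := (h2 _).1
        calc (1 - 3 * η) * Vv ≤ (1 - η) * Vv := by nlinarith
          _ ≤ p * l := r2.le
          _ ≤ p * l' := mul_le_mul_of_nonneg_left hl' hp0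
      rw [abs_le]
      constructor
      · have : p - Vv / l' = (p * l' - Vv) / l' := by field_simp
        rw [this, show -(3 * η * (Vv / l')) = (-(3 * η * Vv)) / l' by ring]
        exact div_le_div_of_nonneg_right (by linarith) hl'0.le
      · have : p - Vv / l' = (p * l' - Vv) / l' := by field_simp
        rw [this, show 3 * η * (Vv / l') = (3 * η * Vv) / l' by ring]
        exact div_le_div_of_nonneg_right (by linarith) hl'0.le
    · rw [h3 _ hrj]
      simp
  have k4 : 4 * (i + 1) / η * Real.log x ≤ E := g2.trans hE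
  have k5 : 4 * (i + 1) * Real.log x ≤ η * E := by
    have := mul_le_mul_of_nonneg_left k4 hη0.le
    calc 4 * (i + 1) * Real.log x = η * (4 * (i + 1) / η * Real.log x) := by field_simp
      _ ≤ _ := this
  obtain ⟨p1, p2⟩ := abs_le.1 hPE
  have hPn : 0 ≤ P := sum_nonneg fun j _ => (h2 _).1
  have k6 : 1 / ((i : ℝ) + 1) * P ≤ η * P := mul_le_mul_of_nonneg_right hi.le hPn
  have k7 : η * P ≤ 2 * η * E := by
    have : P ≤ 2 * E := by nlinarith
    nlinarith
  have k8 : |(cnt S ω x L : ℝ) - P| ≤ 3 * η * E := by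
    refine k1.trans ?_
    linarith
  calc |(cnt S ω x L : ℝ) - E| ≤ |(cnt S ω x L : ℝ) - P| + |P - E| := abs_sub_le _ _ _
    _ ≤ 3 * η * E + 3 * η * E := add_le_add k8 hPE
    _ ≤ ε * E := by nlinarith

end

end Pool.Agent.D0H68.SD
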