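import Pool.Agent.D0H68.SD.Fin

/-! From windows to consecutive elements. -/

set_option autoImplicit false

open MeasureTheory Filter Finset
open scoped Topology

namespace Pool.Agent.D0H68.SD

/-- consecutive elements of a set which meets all short windows -/
theorem nth_gap (p : ℕ → Prop) (η : ℝ) (h : ∀ᶠ x : ℕ in atTop, ∃ m : ℕ, x < m ∧ (m : ℝ) ≤ x + (x : ℝ) ^ η ∧ p m) :
    {m | p m}.Infinite ∧ ∀ᶠ k : ℕ in atTop, ((Nat.nth p (k + 1) : ℕ) : ℝ) - (Nat.nth p k : ℕ) ≤ ((Nat.nth p k : ℕ) : ℝ) ^ η := by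
  obtain ⟨x0, hx0⟩ := eventually_atTop.1 h
  have hinf : {m | p m}.Infinite := by
    rw [Set.infinite_iff_exists_gt]
    intro a
    obtain ⟨m, h1, _, h3⟩ := hx0 (max a x0) (le_max_right _ _)
    exact ⟨m, h3, lt_of_le_of_lt (le_max_left _ _) h1⟩
  refine ⟨hinf, ?_⟩
  have hmono : StrictMono (Nat.nth p) := Nat.nth_strictMono hinf
  filter_upwards [eventually_ge_atTop x0] with k hk
  have h1 : x0 ≤ Nat.nth p k := hk.trans (hmono.id_le k)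
  obtain ⟨m, h2, h3, h4⟩ := hx0 _ h1
  classical
  have h5 : Nat.nth p (Nat.count p m) = m := Nat.nth_count h4
  have h6 : k < Nat.count p m := by
    rw [← hmono.lt_iff_lt, h5]
    exact h2
  have h7 : Nat.nth p (k + 1) ≤ m := by
    rw [← h5]
    exact hmono.monotone (by omega)
  have h8 : ((Nat.nth p (k + 1) : ℕ) : ℝ) ≤ m := by exact_mod_cast h7
  linarith

/-- the differences of the square roots -/
theorem nth_sqrt (p : ℕ → Prop) (η : ℝ) (hη : η < 1 / 2) (hinf : {m | p m}.Infinite)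
    (h : ∀ᶠ k : ℕ in atTop, ((Nat.nth p (k + 1) : ℕ) : ℝ) - (Nat.nth p k : ℕ) ≤ ((Nat.nth p k : ℕ) : ℝ) ^ η) :
    Tendsto (fun k => √((Nat.nth p (k + 1) : ℕ) : ℝ) - √((Nat.nth p k : ℕ) : ℝ)) atTop (𝓝 0) := by
  have hmono : StrictMono (Nat.nth p) := Nat.nth_strictMono hinf
  have hlim : Tendsto (fun k : ℕ => ((Nat.nth p k : ℕ) : ℝ)) atTop atTop :=
    tendsto_natCast_atTop_atTop.comp hmono.tendsto_atTop
  have h2 : Tendsto (fun k : ℕ => ((Nat.nth p k : ℕ) : ℝ) ^ (-(1 / 2 - η))) atTop (𝓝 0) :=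
    (tendsto_rpow_neg_atTop (by linarith : 0 < 1 / 2 - η)).comp hlim
  refine squeeze_zero' ?_ ?_ h2
  · filter_upwards with k
    rw [sub_nonneg]
    apply Real.sqrt_le_sqrt
    exact_mod_cast (hmono (Nat.lt_succ_self k)).le
  · filter_upwards [h, hlim.eventually_gt_atTop 0] with k h3 h4
    set a : ℝ := ((Nat.nth p k : ℕ) : ℝ) with ha
    set b : ℝ := ((Nat.nth p (k + 1) : ℕ) : ℝ) with hb
    have hab : a ≤ b := by
      rw [ha, hb]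
      exact_mod_cast (hmono (Nat.lt_succ_self k)).le
    have hsa : 0 < √a := Real.sqrt_pos.2 h4
    have hsb : √a ≤ √b := Real.sqrt_le_sqrt hab
    have h5 : (√b - √a) * √a ≤ b - a := by
      have e1 : b - a = (√b - √a) * (√b + √a) := by
        have := Real.mul_self_sqrt (h4.le.trans hab)
        have := Real.mul_self_sqrt h4.le
        linarith
      rw [e1]
      apply mul_le_mul_of_nonneg_left _ (sub_nonneg.2 hsb)
      linarith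
    have h6 : √a = a ^ (1 / 2 : ℝ) := Real.sqrt_eq_rpow a
    have h7 : (√b - √a) * √a ≤ a ^ η := h5.trans h3
    rw [← le_div_iff₀ hsa] at h7
    refine h7.trans (le_of_eq ?_)
    rw [h6, ← Real.rpow_sub h4]
    congr 1
    ring

section

variable {Ω : Type} {m0 : MeasurableSpace Ω} {μ : Measure Ω} [IsProbabilityMeasure μ]
  {ℱ : Filtration ℕ m0} {S : ℕ → Set Ω}

/-- the windows `(x, x + x ^ η]`: the expected number is large -/
theorem exp_pow (z : ℕ → ℕ) (θ η : ℝ) (h0 : 0 ≤ θ) (hz : ∀ᶠ n : ℕ in atTop, (z n : ℝ) ≤ (n : ℝ) ^ θ)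
    (h1 : 2 * θ < η) (h2 : η ≤ 1) : ∃ κ : ℝ, 0 < κ ∧
    ∀ᶠ x : ℕ in atTop, κ * ((x : ℝ) ^ η / Real.log x ^ 2) ≤ expd z x ⌊(x : ℝ) ^ η⌋₊ ∧
      (Real.log x) ^ (1 + 1 : ℝ) ≤ expd z x ⌊(x : ℝ) ^ η⌋₊ := by
  have hη0 : 0 < η := by linarith
  set θ' : ℝ := (θ / η + 1 / 2) / 2 with hθ'
  have hr : θ / η < 1 / 2 := by rw [div_lt_iff₀ hη0]; linarith
  have hr0 : 0 ≤ θ / η := by positivity
  have hθ0 : 0 < θ' := by rw [hθ']; linarith
  have hθ1 : θ' < 1 / 2 := by rw [hθ']; linarith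
  obtain ⟨κ, hκ, L0, H⟩ := expd_ge θ' hθ0 hθ1
  have hgap : 0 < η * θ' - θ := by
    have : η * θ' = (θ + η / 2) / 2 := by
      rw [hθ']; field_simp
    rw [this]; linarith
  obtain ⟨n0, hn0⟩ := eventually_atTop.1 hz
  have e1 : ∀ᶠ x : ℕ in atTop, (2 : ℝ) ^ (θ + θ') ≤ (x : ℝ) ^ (η * θ' - θ) :=
    tendsto_natCast_atTop_atTop.eventually ((tendsto_rpow_atTop hgap).eventually_ge_atTop _)
  have e2 : ∀ᶠ x : ℕ in atTop, (2 * (L0 + 2) : ℝ) ≤ (x : ℝ) ^ η :=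
    tendsto_natCast_atTop_atTop.eventually ((tendsto_rpow_atTop hη0).eventually_ge_atTop _)
  have e3 : ∀ᶠ x : ℕ in atTop, Real.log x ^ 4 ≤ (κ / 2) * (x : ℝ) ^ η := by
    have h3 := (isLittleO_log_rpow_rpow_atTop (4 : ℝ) hη0).bound (by positivity : 0 < κ / 2)
    have h4 := tendsto_natCast_atTop_atTop.eventually h3
    filter_upwards [h4, eventually_ge_atTop 1] with x h5 h6
    have h7 : (1 : ℝ) ≤ x := by exact_mod_cast h6
    have h8 : 0 ≤ Real.log (x : ℝ) := Real.log_nonneg h7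
    rw [Real.norm_of_nonneg (by positivity), Real.norm_of_nonneg (by positivity)] at h5
    refine le_trans (le_of_eq ?_) h5
    rw [← Real.rpow_natCast]
    norm_num
  refine ⟨κ / 2, by positivity, ?_⟩
  filter_upwards [e1, e2, e3, eventually_ge_atTop (n0 + 2), logN.eventually_gt_atTop 0] with x g1 g2 g3 g4 g5
  have hx : (2 : ℝ) ≤ x := by exact_mod_cast (by omega : 2 ≤ x)
  have hx0 : (0 : ℝ) < x := by linarith
  set L : ℕ := ⌊(x : ℝ) ^ η⌋₊ with hL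
  have hLle : (L : ℝ) ≤ (x : ℝ) ^ η := Nat.floor_le (by positivity)
  have hLge : (x : ℝ) ^ η / 2 ≤ L := by
    have := Nat.lt_floor_add_one ((x : ℝ) ^ η)
    rw [← hL] at this
    have h9 : (2 : ℝ) ≤ (x : ℝ) ^ η := by
      have : (0 : ℝ) ≤ L0 := Nat.cast_nonneg _
      linarith
    linarith
  have hL0 : L0 ≤ L := by
    have : (L0 : ℝ) ≤ L := by linarith
    exact_mod_cast this
  have hLx : L ≤ x := by
    have : (L : ℝ) ≤ x := by
      calc (L : ℝ) ≤ (x : ℝ) ^ η := hLle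
        _ ≤ (x : ℝ) ^ (1 : ℝ) := Real.rpow_le_rpow_of_exponent_le (by linarith) h2
        _ = x := Real.rpow_one _
    exact_mod_cast this
  have hzL : ∀ m ∈ Ioc x (x + L), (z m : ℝ) ≤ (L : ℝ) ^ θ' := by
    intro m hm
    rw [mem_Ioc] at hm
    have h9 := hn0 m (by omega)
    have h10 : (m : ℝ) ≤ 2 * x := by
      have : m ≤ 2 * x := by omega
      exact_mod_cast this
    calc (z m : ℝ) ≤ (m : ℝ) ^ θ := h9
      _ ≤ (2 * x) ^ θ := Real.rpow_le_rpow (Nat.cast_nonneg _) h10 h0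
      _ = 2 ^ θ * (x : ℝ) ^ θ := Real.mul_rpow (by norm_num) hx0.le
      _ = (2 : ℝ) ^ (θ + θ') * (x : ℝ) ^ θ / 2 ^ θ' := by
          rw [Real.rpow_add (by norm_num)]
          field_simp
      _ ≤ (x : ℝ) ^ (η * θ' - θ) * (x : ℝ) ^ θ / 2 ^ θ' := by gcongr
      _ = (x : ℝ) ^ (η * θ') / 2 ^ θ' := by
          rw [← Real.rpow_add hx0]; congr 2; ring
      _ = ((x : ℝ) ^ η / 2) ^ θ' := by
          rw [Real.div_rpow (by positivity) (by norm_num), ← Real.rpow_mul hx0.le]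
      _ ≤ (L : ℝ) ^ θ' := Real.rpow_le_rpow (by positivity) hLge hθ0.le
  have hE := H L x hL0 hLx z hzL
  have hE2 : κ / 2 * ((x : ℝ) ^ η / Real.log x ^ 2) ≤ expd z x L := by
    refine le_trans ?_ hE
    calc κ / 2 * ((x : ℝ) ^ η / Real.log x ^ 2) = κ * (((x : ℝ) ^ η / 2) / Real.log x ^ 2) := by ring
      _ ≤ κ * (L / Real.log x ^ 2) := by gcongr
  refine ⟨hE2, le_trans ?_ hE2⟩
  have h11 : (Real.log x) ^ (1 + 1 : ℝ) = Real.log x ^ 2 := by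
    rw [← Real.rpow_natCast]; norm_num
  rw [h11, mul_div_assoc', le_div_iff₀ (by positivity)]
  calc Real.log x ^ 2 * Real.log x ^ 2 = Real.log x ^ 4 := by ring
    _ ≤ _ := g3

theorem gaps (hS : ∀ n, MeasurableSet[ℱ n] (S n)) (z : ℕ → ℕ)
    (h : ∀ᵐ ω ∂μ, ∃ c : ℝ, 0 < c ∧ ∀ᶠ n : ℕ in atTop, Rough z (n + 1) →
      c * V (z (n + 1)) ≤ Pr μ ℱ S n ω * Real.log n)
    (θ : ℝ) (h0 : 0 ≤ θ) (hz : ∀ᶠ n : ℕ in atTop, (z n : ℝ) ≤ (n : ℝ) ^ θ) :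
    ∀ᵐ ω ∂μ, ∀ η : ℝ, 2 * θ < η → η ≤ 1 → {m | ω ∈ S m}.Infinite ∧
      ∀ᶠ k : ℕ in atTop, ((Nat.nth (fun m => ω ∈ S m) (k + 1) : ℕ) : ℝ) - (Nat.nth (fun m => ω ∈ S m) k : ℕ) ≤
        ((Nat.nth (fun m => ω ∈ S m) k : ℕ) : ℝ) ^ η := by
  filter_upwards [low (μ := μ) (ℱ := ℱ) hS z h] with ω hω η h1 h2
  obtain ⟨κ, hκ, h3⟩ := hω
  obtain ⟨κ', hκ', h4⟩ := exp_pow z θ η h0 hz h1 h2
  have hη0 : 0 < η := by linarith
  apply nth_gap
  filter_upwards [h3 1 one_pos, h4, eventually_ge_atTop 3, logN.eventually_gt_atTop 0] with x g1 g2 g3 g5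
  have hx : (3 : ℝ) ≤ x := by exact_mod_cast g3
  have hLx : ⌊(x : ℝ) ^ η⌋₊ ≤ x := by
    have : ((⌊(x : ℝ) ^ η⌋₊ : ℕ) : ℝ) ≤ x := by
      calc ((⌊(x : ℝ) ^ η⌋₊ : ℕ) : ℝ) ≤ (x : ℝ) ^ η := Nat.floor_le (by positivity)
        _ ≤ (x : ℝ) ^ (1 : ℝ) := Real.rpow_le_rpow_of_exponent_le (by linarith) h2
        _ = x := Real.rpow_one _
    exact_mod_cast this
  have h5 := g1 _ hLx g2.2
  have h6 : 0 < expd z x ⌊(x : ℝ) ^ η⌋₊ := lt_of_lt_of_le (Real.rpow_pos_of_pos g5 _) g2.2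
  have h7 : (0 : ℝ) < cnt S ω x ⌊(x : ℝ) ^ η⌋₊ := lt_of_lt_of_le (by positivity) h5
  have h8 : 0 < cnt S ω x ⌊(x : ℝ) ^ η⌋₊ := by exact_mod_cast h7
  classical
  unfold cnt at h8
  rw [card_pos] at h8
  obtain ⟨m, hm⟩ := h8
  rw [mem_filter, mem_Ioc] at hm
  refine ⟨m, hm.1.1, ?_, hm.2⟩
  have h9 : (m : ℝ) ≤ x + (⌊(x : ℝ) ^ η⌋₊ : ℕ) := by exact_mod_cast hm.1.2
  have h10 : ((⌊(x : ℝ) ^ η⌋₊ : ℕ) : ℝ) ≤ (x : ℝ) ^ η := Nat.floor_le (by positivity)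
  linarith

end

end Pool.Agent.D0H68.SD
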