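import Mathlib

/-! Exponential moments for adapted sequences of events. -/

set_option autoImplicit false

open MeasureTheory Filter Finset
open scoped Topology

namespace Pool.Agent.D0H68.SD

variable {Ω : Type} {m0 : MeasurableSpace Ω} {μ : Measure Ω} [IsProbabilityMeasure μ]
  {ℱ : Filtration ℕ m0} {S : ℕ → Set Ω}

/-- the indicator function of `S n` -/
noncomputable def In (S : ℕ → Set Ω) (n : ℕ) (ω : Ω) : ℝ := (S n).indicator (fun _ => (1 : ℝ)) ω

/-- the conditional probability of `S (n + 1)` given `ℱ n` -/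
noncomputable def Pr (μ : Measure Ω) (ℱ : Filtration ℕ m0) (S : ℕ → Set Ω) (n : ℕ) (ω : Ω) : ℝ :=
  (μ[(S (n + 1)).indicator (fun _ => (1 : ℝ)) | ℱ n]) ω

theorem In_nonneg (n : ℕ) (ω : Ω) : 0 ≤ In S n ω := Set.indicator_nonneg (fun _ _ => zero_le_one) _

theorem In_le (n : ℕ) (ω : Ω) : In S n ω ≤ 1 := by
  unfold In
  by_cases h : ω ∈ S n
  · rw [Set.indicator_of_mem h]
  · rw [Set.indicator_of_notMem h]; exact zero_le_one

theorem In_one {n : ℕ} {ω : Ω} (h : ω ∈ S n) : In S n ω = 1 := Set.indicator_of_mem h _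
theorem In_zero {n : ℕ} {ω : Ω} (h : ω ∉ S n) : In S n ω = 0 := Set.indicator_of_notMem h _

theorem exp_In (s : ℝ) (n : ℕ) (ω : Ω) : Real.exp (s * In S n ω) = 1 + (Real.exp s - 1) * In S n ω := by
  by_cases h : ω ∈ S n
  · rw [In_one h]; ring_nf
  · rw [In_zero h]; simp

theorem In_meas (hS : ∀ n, MeasurableSet[ℱ n] (S n)) (n : ℕ) : StronglyMeasurable[ℱ n] (In S n) :=
  stronglyMeasurable_const.indicator (hS n)

theorem In_int (hS : ∀ n, MeasurableSet[ℱ n] (S n)) (n : ℕ) : Integrable (In S n) μ :=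
  (integrable_const (1 : ℝ)).indicator (ℱ.le n _ (hS n))

theorem Pr_meas (n : ℕ) : StronglyMeasurable[ℱ n] (Pr μ ℱ S n) := stronglyMeasurable_condExp

theorem Pr_bd (hS : ∀ n, MeasurableSet[ℱ n] (S n)) (n : ℕ) : ∀ᵐ ω ∂μ, 0 ≤ Pr μ ℱ S n ω ∧ Pr μ ℱ S n ω ≤ 1 := by
  have h1 : ∀ᵐ ω ∂μ, 0 ≤ Pr μ ℱ S n ω :=
    condExp_nonneg (ae_of_all _ fun ω => In_nonneg (S := S) (n + 1) ω)
  have h2 : (μ[(S (n + 1)).indicator (fun _ => (1 : ℝ)) | ℱ n]) ≤ᵐ[μ] μ[(fun _ => (1 : ℝ)) | ℱ n] :=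
    condExp_mono (In_int hS (n + 1)) (integrable_const _) (ae_of_all _ fun ω => In_le (S := S) (n + 1) ω)
  rw [condExp_const (ℱ.le n)] at h2
  filter_upwards [h1, h2] with ω a b
  exact ⟨a, b⟩

/-- the exponential process -/
noncomputable def W (μ : Measure Ω) (ℱ : Filtration ℕ m0) (S : ℕ → Set Ω) (s : ℝ) (x k : ℕ) (ω : Ω) : ℝ :=
  Real.exp (∑ j ∈ range k, (s * In S (x + j + 1) ω - (Real.exp s - 1) * Pr μ ℱ S (x + j) ω))

theorem W_meas (hS : ∀ n, MeasurableSet[ℱ n] (S n)) (s : ℝ) (x k : ℕ) :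
    StronglyMeasurable[ℱ (x + k)] (W μ ℱ S s x k) := by
  unfold W
  apply Continuous.comp_stronglyMeasurable Real.continuous_exp
  apply Finset.stronglyMeasurable_fun_sum
  intro j hj
  rw [mem_range] at hj
  apply StronglyMeasurable.sub
  · exact ((In_meas hS (x + j + 1)).mono (ℱ.mono (by omega))).const_mul s
  · exact ((Pr_meas (x + j)).mono (ℱ.mono (by omega))).const_mul _

theorem W_bd (hS : ∀ n, MeasurableSet[ℱ n] (S n)) (s : ℝ) (x k : ℕ) :
    ∀ᵐ ω ∂μ, ‖W μ ℱ S s x k ω‖ ≤ Real.exp (k * (|s| + |Real.exp s - 1|)) := by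
  have h : ∀ᵐ ω ∂μ, ∀ n, 0 ≤ Pr μ ℱ S n ω ∧ Pr μ ℱ S n ω ≤ 1 := ae_all_iff.2 fun n => Pr_bd hS n
  filter_upwards [h] with ω hω
  unfold W
  rw [Real.norm_eq_abs, Real.abs_exp]
  apply Real.exp_le_exp.2
  calc ∑ j ∈ range k, (s * In S (x + j + 1) ω - (Real.exp s - 1) * Pr μ ℱ S (x + j) ω)
      ≤ ∑ j ∈ range k, (|s| + |Real.exp s - 1|) := by
        apply sum_le_sum
        intro j _
        have h1 : s * In S (x + j + 1) ω ≤ |s| := by
          calc s * In S (x + j + 1) ω ≤ |s| * In S (x + j + 1) ω :=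
                mul_le_mul_of_nonneg_right (le_abs_self s) (In_nonneg _ _)
            _ ≤ |s| * 1 := mul_le_mul_of_nonneg_left (In_le _ _) (abs_nonneg _)
            _ = |s| := mul_one _
        have h2 : -((Real.exp s - 1) * Pr μ ℱ S (x + j) ω) ≤ |Real.exp s - 1| := by
          obtain ⟨a, b⟩ := hω (x + j)
          calc -((Real.exp s - 1) * Pr μ ℱ S (x + j) ω) = (-(Real.exp s - 1)) * Pr μ ℱ S (x + j) ω := by ring
            _ ≤ |Real.exp s - 1| * Pr μ ℱ S (x + j) ω := mul_le_mul_of_nonneg_right (neg_le_abs _) a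
            _ ≤ |Real.exp s - 1| * 1 := mul_le_mul_of_nonneg_left b (abs_nonneg _)
            _ = |Real.exp s - 1| := mul_one _
        linarith
    _ = k * (|s| + |Real.exp s - 1|) := by rw [sum_const, card_range, nsmul_eq_mul]

theorem W_int (hS : ∀ n, MeasurableSet[ℱ n] (S n)) (s : ℝ) (x k : ℕ) : Integrable (W μ ℱ S s x k) μ :=
  Integrable.of_bound ((W_meas hS s x k).mono (ℱ.le _)).aestronglyMeasurable _ (W_bd hS s x k)

theorem W_one (hS : ∀ n, MeasurableSet[ℱ n] (S n)) (s : ℝ) (x k : ℕ) : ∫ ω, W μ ℱ S s x k ω ∂μ ≤ 1 := by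
  induction k with
  | zero => simp [W]
  | succ k ih =>
    set G : Ω → ℝ := fun ω => W μ ℱ S s x k ω * Real.exp (-((Real.exp s - 1) * Pr μ ℱ S (x + k) ω)) with hG
    have hGm : StronglyMeasurable[ℱ (x + k)] G :=
      (W_meas hS s x k).mul (Real.continuous_exp.comp_stronglyMeasurable ((Pr_meas (x + k)).const_mul _).neg)
    have hPb : ∀ᵐ ω ∂μ, 0 ≤ Pr μ ℱ S (x + k) ω ∧ Pr μ ℱ S (x + k) ω ≤ 1 := Pr_bd hS (x + k)
    have hGb : ∀ᵐ ω ∂μ, ‖G ω‖ ≤ Real.exp (k * (|s| + |Real.exp s - 1|)) * Real.exp |Real.exp s - 1| := by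
      filter_upwards [W_bd hS s x k, hPb] with ω h1 h2
      rw [hG, norm_mul]
      apply mul_le_mul h1 _ (norm_nonneg _) (Real.exp_nonneg _)
      rw [Real.norm_eq_abs, Real.abs_exp]
      apply Real.exp_le_exp.2
      obtain ⟨a, b⟩ := h2
      calc -((Real.exp s - 1) * Pr μ ℱ S (x + k) ω) = (-(Real.exp s - 1)) * Pr μ ℱ S (x + k) ω := by ring
        _ ≤ |Real.exp s - 1| * Pr μ ℱ S (x + k) ω := mul_le_mul_of_nonneg_right (neg_le_abs _) a
        _ ≤ |Real.exp s - 1| * 1 := mul_le_mul_of_nonneg_left b (abs_nonneg _)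
        _ = |Real.exp s - 1| := mul_one _
    have hGi : Integrable G μ := Integrable.of_bound (hGm.mono (ℱ.le _)).aestronglyMeasurable _ hGb
    have hGI : Integrable (fun ω => G ω * In S (x + k + 1) ω) μ := by
      have := (In_int (μ := μ) hS (x + k + 1)).bdd_mul (hGm.mono (ℱ.le _)).aestronglyMeasurable hGb
      exact this
    have hGP : Integrable (fun ω => G ω * Pr μ ℱ S (x + k) ω) μ := by
      have h1 : Integrable (Pr μ ℱ S (x + k)) μ := integrable_condExp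
      exact h1.bdd_mul (hGm.mono (ℱ.le _)).aestronglyMeasurable hGb
    have e1 : ∀ ω, W μ ℱ S s x (k + 1) ω = G ω + (Real.exp s - 1) * (G ω * In S (x + k + 1) ω) := by
      intro ω
      have h1 : W μ ℱ S s x (k + 1) ω = G ω * Real.exp (s * In S (x + k + 1) ω) := by
        rw [hG]
        simp only [W]
        rw [sum_range_succ, ← Real.exp_add, ← Real.exp_add]
        congr 1
        ring
      rw [h1, exp_In]
      ring
    have e2 : ∫ ω, G ω * In S (x + k + 1) ω ∂μ = ∫ ω, G ω * Pr μ ℱ S (x + k) ω ∂μ := by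
      have h1 : μ[(fun ω => G ω * In S (x + k + 1) ω) | ℱ (x + k)] =ᵐ[μ]
          fun ω => G ω * Pr μ ℱ S (x + k) ω := by
        have := condExp_mul_of_stronglyMeasurable_left (μ := μ) (m := ℱ (x + k)) hGm (g := In S (x + k + 1)) hGI
          (In_int hS (x + k + 1))
        exact this
      rw [← integral_condExp (ℱ.le (x + k)) (f := fun ω => G ω * In S (x + k + 1) ω)]
      exact integral_congr_ae h1
    calc ∫ ω, W μ ℱ S s x (k + 1) ω ∂μ = ∫ ω, (G ω + (Real.exp s - 1) * (G ω * In S (x + k + 1) ω)) ∂μ :=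
          integral_congr_ae (ae_of_all _ e1)
      _ = ∫ ω, G ω ∂μ + (Real.exp s - 1) * ∫ ω, G ω * In S (x + k + 1) ω ∂μ := by
          rw [integral_add hGi (hGI.const_mul _), integral_const_mul]
      _ = ∫ ω, G ω ∂μ + (Real.exp s - 1) * ∫ ω, G ω * Pr μ ℱ S (x + k) ω ∂μ := by rw [e2]
      _ = ∫ ω, (G ω + (Real.exp s - 1) * (G ω * Pr μ ℱ S (x + k) ω)) ∂μ := by
          rw [integral_add hGi (hGP.const_mul _), integral_const_mul]
      _ ≤ ∫ ω, W μ ℱ S s x k ω ∂μ := by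
          apply integral_mono_ae (hGi.add (hGP.const_mul _)) (W_int hS s x k)
          filter_upwards with ω
          have h1 : G ω + (Real.exp s - 1) * (G ω * Pr μ ℱ S (x + k) ω) =
              W μ ℱ S s x k ω * (Real.exp (-((Real.exp s - 1) * Pr μ ℱ S (x + k) ω)) *
                ((Real.exp s - 1) * Pr μ ℱ S (x + k) ω + 1)) := by
            rw [hG]; ring
          show G ω + (Real.exp s - 1) * (G ω * Pr μ ℱ S (x + k) ω) ≤ W μ ℱ S s x k ω
          rw [h1]
          have h2 : Real.exp (-((Real.exp s - 1) * Pr μ ℱ S (x + k) ω)) *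
                ((Real.exp s - 1) * Pr μ ℱ S (x + k) ω + 1) ≤ 1 := by
            calc _ ≤ Real.exp (-((Real.exp s - 1) * Pr μ ℱ S (x + k) ω)) *
                Real.exp ((Real.exp s - 1) * Pr μ ℱ S (x + k) ω) :=
                  mul_le_mul_of_nonneg_left (Real.add_one_le_exp _) (Real.exp_nonneg _)
              _ = 1 := by rw [← Real.exp_add]; simp
          exact mul_le_of_le_one_right (Real.exp_nonneg _) h2
      _ ≤ 1 := ih

/-- Markov's inequality for the exponential process -/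
theorem W_tail (hS : ∀ n, MeasurableSet[ℱ n] (S n)) (s t : ℝ) (x k : ℕ) :
    μ {ω | t ≤ ∑ j ∈ range k, (s * In S (x + j + 1) ω - (Real.exp s - 1) * Pr μ ℱ S (x + j) ω)} ≤
      ENNReal.ofReal (Real.exp (-t)) := by
  have h1 := mul_meas_ge_le_integral_of_nonneg (μ := μ) (f := W μ ℱ S s x k)
    (ae_of_all _ fun ω => Real.exp_nonneg _) (W_int hS s x k) (Real.exp t)
  have h2 : {ω | Real.exp t ≤ W μ ℱ S s x k ω} =
      {ω | t ≤ ∑ j ∈ range k, (s * In S (x + j + 1) ω - (Real.exp s - 1) * Pr μ ℱ S (x + j) ω)} := by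
    ext ω
    simp only [Set.mem_ofPred_eq, W, Real.exp_le_exp]
  rw [h2] at h1
  have h3 := h1.trans (W_one hS s x k)
  have h4 : (μ.real {ω | t ≤ ∑ j ∈ range k, (s * In S (x + j + 1) ω -
      (Real.exp s - 1) * Pr μ ℱ S (x + j) ω)}) ≤ Real.exp (-t) := by
    rw [Real.exp_neg, ← one_div, le_div_iff₀ (Real.exp_pos _), mul_comm]
    exact h3
  rw [← ofReal_measureReal]
  exact ENNReal.ofReal_le_ofReal h4

end Pool.Agent.D0H68.SD
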