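import Pool.Agent.D0H36.BW.DetA
import Pool.Agent.D0H36.BW.Prod

/-! The expected number of chosen integers in short intervals: lower bounds (linear sieve). -/

set_option autoImplicit false

open Filter Finset
open scoped Topology

namespace Pool.Agent.D0H68.SD

/-- `m` has no prime factor at most `z m` -/
def Rough (z : ℕ → ℕ) (m : ℕ) : Prop := ∀ q, q.Prime → q ≤ z m → ¬ q ∣ m

/-- `∏_{q ≤ x} (1 - 1 / q)⁻¹` -/
noncomputable def V (x : ℕ) : ℝ := ∏ q ∈ (Finset.Icc 1 x).filter Nat.Prime, (1 - (q : ℝ)⁻¹)⁻¹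

open Classical in
/-- the expected number of chosen integers in `(x, x + L]` -/
noncomputable def expd (z : ℕ → ℕ) (x L : ℕ) : ℝ := ∑ m ∈ (Ioc x (x + L)).filter (Rough z), V (z m) / Real.log m

theorem fac_ge (q : ℕ) (hq : q.Prime) : 1 ≤ (1 - (q : ℝ)⁻¹)⁻¹ := by
  have h2 : (2 : ℝ) ≤ q := by exact_mod_cast hq.two_le
  have h3 : (q : ℝ)⁻¹ ≤ 1 / 2 := by rw [← one_div]; exact one_div_le_one_div_of_le (by norm_num) h2
  have h4 : 0 < (q : ℝ)⁻¹ := by positivity
  rw [one_le_inv₀ (by linarith)]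
  linarith

theorem V_one (x : ℕ) : 1 ≤ V x := by
  unfold V
  calc (1 : ℝ) = ∏ q ∈ (Finset.Icc 1 x).filter Nat.Prime, (1 : ℝ) := by simp
    _ ≤ _ := Finset.prod_le_prod (fun _ _ => zero_le_one) fun q hq => fac_ge q (mem_filter.1 hq).2

theorem V_ge : ∃ c : ℝ, 0 < c ∧ ∀ y : ℕ, 2 ≤ y → c * Real.log y ≤ V y := by
  obtain ⟨c, C, hc, hC, h⟩ := Pool.Agent.D0H36.BW.VI_bounds
  have hl2 : 0 < Real.log 2 := Real.log_pos (by norm_num)
  refine ⟨c / Real.log 2, by positivity, fun y hy => ?_⟩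
  have h1 := (h 2 y le_rfl hy).1
  have h2 : Pool.Agent.D0H36.BW.VI 2 y ≤ V y := by
    unfold Pool.Agent.D0H36.BW.VI V
    have hsub : Pool.Agent.D0H36.BW.pg 2 y ⊆ (Finset.Icc 1 y).filter Nat.Prime := by
      intro p hp
      rw [Pool.Agent.D0H36.BW.mem_pg] at hp
      rw [mem_filter, mem_Icc]
      exact ⟨⟨by omega, hp.2.1⟩, hp.2.2⟩
    have h3 : ∏ p ∈ Pool.Agent.D0H36.BW.pg 2 y, (1 - 1 / (p : ℝ))⁻¹ =
        ∏ p ∈ Pool.Agent.D0H36.BW.pg 2 y, (1 - (p : ℝ)⁻¹)⁻¹ := by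
      refine prod_congr rfl fun p _ => by rw [one_div]
    rw [h3, ← Finset.prod_sdiff hsub]
    have h4 : (1 : ℝ) ≤ ∏ q ∈ (Finset.Icc 1 y).filter Nat.Prime \ Pool.Agent.D0H36.BW.pg 2 y, (1 - (q : ℝ)⁻¹)⁻¹ := by
      calc (1 : ℝ) = ∏ q ∈ (Finset.Icc 1 y).filter Nat.Prime \ Pool.Agent.D0H36.BW.pg 2 y, (1 : ℝ) := by simp
        _ ≤ _ := Finset.prod_le_prod (fun _ _ => zero_le_one)
          fun q hq => fac_ge q (mem_filter.1 (Finset.mem_sdiff.1 hq).1).2
    have h5 : (0 : ℝ) ≤ ∏ q ∈ Pool.Agent.D0H36.BW.pg 2 y, (1 - (q : ℝ)⁻¹)⁻¹ :=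
      prod_nonneg fun q hq => le_trans zero_le_one (fac_ge q ((Pool.Agent.D0H36.BW.mem_pg _ _ _).1 hq).2.2)
    nlinarith
  refine le_trans (le_of_eq ?_) (h1.trans h2)
  push_cast
  ring

theorem expd_nonneg (z : ℕ → ℕ) (x L : ℕ) : 0 ≤ expd z x L := by
  unfold expd
  exact sum_nonneg fun m _ => div_nonneg (zero_le_one.trans (V_one _)) (Real.log_natCast_nonneg m)

/-- the sum over the numbers without prime factors at most `a` -/
theorem expd_low {z : ℕ → ℕ} {x L a : ℕ} {w : ℝ} (hw : 0 ≤ w) (hx : 2 ≤ x) (hLx : L ≤ x)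
    (hz : ∀ m ∈ Ioc x (x + L), z m ≤ a) (hV : ∀ m ∈ Ioc x (x + L), w ≤ V (z m)) :
    (Pool.Agent.D0H36.BW.sv a L x).card * (w / (2 * Real.log x)) ≤ expd z x L := by
  classical
  have hx' : (2 : ℝ) ≤ x := by exact_mod_cast hx
  have hlx : 0 < Real.log x := Real.log_pos (by linarith)
  unfold expd
  have h1 : ((Pool.Agent.D0H36.BW.sv a L x).image (fun h => x + h)) ⊆ (Ioc x (x + L)).filter (Rough z) := by
    intro m hm
    rw [mem_image] at hm
    obtain ⟨h, hh, rfl⟩ := hm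
    rw [Pool.Agent.D0H36.BW.mem_sv, mem_Icc] at hh
    have hmem : x + h ∈ Ioc x (x + L) := by rw [mem_Ioc]; omega
    rw [mem_filter]
    refine ⟨hmem, fun q hq hqz hd => ?_⟩
    exact hh.2 q (mem_Icc.2 ⟨hq.one_lt.le, hqz.trans (hz _ hmem)⟩) hq hd
  have h2 : ((Pool.Agent.D0H36.BW.sv a L x).image (fun h => x + h)).card = (Pool.Agent.D0H36.BW.sv a L x).card :=
    card_image_of_injective _ (add_right_injective x)
  calc ((Pool.Agent.D0H36.BW.sv a L x).card : ℝ) * (w / (2 * Real.log x))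
      = ∑ m ∈ (Pool.Agent.D0H36.BW.sv a L x).image (fun h => x + h), w / (2 * Real.log x) := by
        rw [sum_const, h2, nsmul_eq_mul]
    _ ≤ ∑ m ∈ (Pool.Agent.D0H36.BW.sv a L x).image (fun h => x + h), V (z m) / Real.log m := by
        refine sum_le_sum fun m hm => ?_
        have hm' := (mem_filter.1 (h1 hm)).1
        have hV' := hV m hm'
        rw [mem_Ioc] at hm'
        have hmr : (x : ℝ) < m := by exact_mod_cast hm'.1
        have hlm : 0 < Real.log m := Real.log_pos (by linarith)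
        have h3 : Real.log m ≤ 2 * Real.log x := by
          have h4 : (m : ℝ) ≤ x ^ 2 := by
            have : (m : ℝ) ≤ x + L := by exact_mod_cast hm'.2
            have : (L : ℝ) ≤ x := by exact_mod_cast hLx
            nlinarith
          calc Real.log m ≤ Real.log ((x : ℝ) ^ 2) := Real.log_le_log (by linarith) h4
            _ = 2 * Real.log x := by rw [Real.log_pow]; norm_num
        exact div_le_div₀ (hw.trans hV') hV' hlm h3
    _ ≤ _ := by
        refine sum_le_sum_of_subset_of_nonneg h1 fun m _ _ => ?_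
        exact div_nonneg (zero_le_one.trans (V_one _)) (Real.log_natCast_nonneg m)

/-- **the expected numbers are large**: sieve up to `L ^ θ`, `θ < 1 / 2`, in intervals of length `L` -/
theorem expd_ge (θ : ℝ) (h0 : 0 < θ) (h1 : θ < 1 / 2) : ∃ κ : ℝ, 0 < κ ∧ ∃ L0 : ℕ, ∀ L x : ℕ, L0 ≤ L → L ≤ x →
    ∀ z : ℕ → ℕ, (∀ m ∈ Ioc x (x + L), (z m : ℝ) ≤ (L : ℝ) ^ θ) → κ * (L / Real.log x ^ 2) ≤ expd z x L := by
  obtain ⟨c, hc, L1, H⟩ := Pool.Agent.D0H36.BW.det_lo θ h0 h1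
  have hev : ∀ᶠ L : ℕ in atTop, (2 : ℝ) ≤ (L : ℝ) ^ θ :=
    (tendsto_natCast_atTop_atTop.eventually ((tendsto_rpow_atTop h0).eventually_ge_atTop 2))
  obtain ⟨L2, hL2⟩ := eventually_atTop.1 hev
  refine ⟨c / 2, by positivity, L1 + L2 + 2, fun L x hL hLx z hz => ?_⟩
  have hLr : (2 : ℝ) ≤ L := by exact_mod_cast (by omega : 2 ≤ L)
  have hLxr : (L : ℝ) ≤ x := by exact_mod_cast hLx
  have hlL : 0 < Real.log L := Real.log_pos (by linarith)
  have hlx : 0 < Real.log x := Real.log_pos (by linarith)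
  have h2 := hL2 L (by omega)
  set a : ℕ := ⌊(L : ℝ) ^ θ⌋₊ with ha
  have ha2 : 2 ≤ a := Nat.le_floor (by exact_mod_cast h2)
  have har : (a : ℝ) ≤ (L : ℝ) ^ θ := Nat.floor_le (by positivity)
  have h3 := H L (by omega) a ha2 har x
  have hla : 0 < Real.log a := Real.log_pos (by exact_mod_cast (by omega : 1 < a))
  have hla2 : Real.log a ≤ Real.log x := by
    apply Real.log_le_log (by exact_mod_cast (by omega : 0 < a))
    calc (a : ℝ) ≤ (L : ℝ) ^ θ := har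
      _ ≤ (L : ℝ) ^ (1 : ℝ) := Real.rpow_le_rpow_of_exponent_le (by linarith) (by linarith)
      _ = L := Real.rpow_one _
      _ ≤ x := hLxr
  have h4 := expd_low (z := z) (x := x) (L := L) (a := a) (w := 1) zero_le_one (by omega) hLx
    (fun m hm => Nat.le_floor (hz m hm)) (fun m _ => V_one _)
  refine le_trans ?_ h4
  calc c / 2 * (L / Real.log x ^ 2) = c * (L / Real.log x) * (1 / (2 * Real.log x)) := by
        field_simp
    _ ≤ c * (L / Real.log a) * (1 / (2 * Real.log x)) := by gcongr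
    _ ≤ _ := mul_le_mul_of_nonneg_right h3 (by positivity)

/-- the right order, if the sieve is not too short either -/
theorem expd_ge2 (θ θ' : ℝ) (h0 : 0 < θ') (h1 : θ < 1 / 2) : ∃ κ : ℝ, 0 < κ ∧ ∃ L0 : ℕ, ∀ L x : ℕ, L0 ≤ L → L ≤ x →
    ∀ z : ℕ → ℕ, (∀ m ∈ Ioc x (x + L), (L : ℝ) ^ θ' ≤ z m ∧ (z m : ℝ) ≤ (L : ℝ) ^ θ) →
      κ * (L / Real.log x) ≤ expd z x L := by
  rcases le_or_gt θ 0 with hθ | hθ
  · have hev : ∀ᶠ L : ℕ in atTop, (2 : ℝ) ≤ (L : ℝ) ^ θ' :=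
      (tendsto_natCast_atTop_atTop.eventually ((tendsto_rpow_atTop h0).eventually_ge_atTop 2))
    obtain ⟨L2, hL2⟩ := eventually_atTop.1 hev
    refine ⟨1, one_pos, L2 + 2, fun L x hL hLx z hz => ?_⟩
    exfalso
    obtain ⟨g1, g2⟩ := hz (x + 1) (by rw [mem_Ioc]; omega)
    have hLr : (2 : ℝ) ≤ L := by exact_mod_cast (by omega : 2 ≤ L)
    have g3 : (L : ℝ) ^ θ ≤ 1 := Real.rpow_le_one_of_one_le_of_nonpos (by linarith) hθ
    have := hL2 L (by omega)
    linarith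
  obtain ⟨c, hc, L1, H⟩ := Pool.Agent.D0H36.BW.det_lo θ hθ h1
  obtain ⟨c1, hc1, hV⟩ := V_ge
  have hev : ∀ᶠ L : ℕ in atTop, (2 : ℝ) ≤ (L : ℝ) ^ θ ∧ (2 : ℝ) ≤ (L : ℝ) ^ θ' :=
    (tendsto_natCast_atTop_atTop.eventually ((tendsto_rpow_atTop hθ).eventually_ge_atTop 2)).and
      (tendsto_natCast_atTop_atTop.eventually ((tendsto_rpow_atTop h0).eventually_ge_atTop 2))
  obtain ⟨L2, hL2⟩ := eventually_atTop.1 hev
  refine ⟨c * c1 * θ' / 2, by positivity, L1 + L2 + 2, fun L x hL hLx z hz => ?_⟩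
  have hLr : (2 : ℝ) ≤ L := by exact_mod_cast (by omega : 2 ≤ L)
  have hLxr : (L : ℝ) ≤ x := by exact_mod_cast hLx
  have hlL : 0 < Real.log L := Real.log_pos (by linarith)
  have hlx : 0 < Real.log x := Real.log_pos (by linarith)
  obtain ⟨h2, h2'⟩ := hL2 L (by omega)
  set a : ℕ := ⌊(L : ℝ) ^ θ⌋₊ with ha
  have ha2 : 2 ≤ a := Nat.le_floor (by exact_mod_cast h2)
  have har : (a : ℝ) ≤ (L : ℝ) ^ θ := Nat.floor_le (by positivity)
  have h3 := H L (by omega) a ha2 har x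
  have hla : 0 < Real.log a := Real.log_pos (by exact_mod_cast (by omega : 1 < a))
  have hla2 : Real.log a ≤ Real.log L := by
    apply Real.log_le_log (by exact_mod_cast (by omega : 0 < a))
    calc (a : ℝ) ≤ (L : ℝ) ^ θ := har
      _ ≤ (L : ℝ) ^ (1 : ℝ) := Real.rpow_le_rpow_of_exponent_le (by linarith) (by linarith)
      _ = L := Real.rpow_one _
  have h4 := expd_low (z := z) (x := x) (L := L) (a := a) (w := c1 * (θ' * Real.log L)) (by positivity) (by omega) hLx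
    (fun m hm => Nat.le_floor (hz m hm).2) (fun m hm => by
      obtain ⟨g1, g2⟩ := hz m hm
      have g3 : (2 : ℝ) ≤ z m := h2'.trans g1
      have g4 : 2 ≤ z m := by exact_mod_cast g3
      refine le_trans ?_ (hV (z m) g4)
      apply mul_le_mul_of_nonneg_left _ hc1.le
      rw [← Real.log_rpow (by linarith)]
      exact Real.log_le_log (by positivity) g1)
  refine le_trans ?_ h4
  calc c * c1 * θ' / 2 * (L / Real.log x) = c * (L / Real.log L) * (c1 * (θ' * Real.log L) / (2 * Real.log x)) := by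
        field_simp
    _ ≤ c * (L / Real.log a) * (c1 * (θ' * Real.log L) / (2 * Real.log x)) := by gcongr
    _ ≤ _ := mul_le_mul_of_nonneg_right h3 (by positivity)

end Pool.Agent.D0H68.SD
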