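import Pool.Agent.D0H68.SD.Mart
import Pool.Agent.D0H68.SD.Num

/-! Almost surely all short windows contain the expected number of chosen integers. -/

set_option autoImplicit false

open MeasureTheory Filter Finset
open scoped Topology

namespace Pool.Agent.D0H68.SD

theorem summ : Summable (fun x : ℕ => ((x : ℝ) + 1) * Real.exp (-(4 * Real.log x))) := by
  rw [← summable_nat_add_iff 1]
  have h1 : Summable (fun x : ℕ => 2 * (1 / ((x + 1 : ℕ) : ℝ) ^ 2)) := by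
    apply Summable.mul_left
    rw [summable_nat_add_iff 1 (f := fun x : ℕ => 1 / (x : ℝ) ^ 2)]
    exact Real.summable_one_div_nat_pow.2 (by norm_num)
  refine Summable.of_nonneg_of_le (fun x => by positivity) (fun x => ?_) h1
  have hx : (1 : ℝ) ≤ ((x + 1 : ℕ) : ℝ) := by push_cast; linarith [Nat.cast_nonneg (α := ℝ) x]
  set y : ℝ := ((x + 1 : ℕ) : ℝ) with hy
  have h2 : Real.exp (-(4 * Real.log y)) = 1 / y ^ 4 := by
    rw [Real.exp_neg, show 4 * Real.log y = ((4 : ℕ) : ℝ) * Real.log y by norm_num, ← Real.log_pow,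
      Real.exp_log (by positivity), one_div]
  rw [h2]
  have hy0 : 0 < y := by linarith
  have h3 : (y + 1) * (1 / y ^ 4) ≤ 2 * (1 / y ^ 2) := by
    rw [mul_one_div, mul_one_div, div_le_div_iff₀ (by positivity) (by positivity)]
    nlinarith [pow_pos hy0 2, pow_pos hy0 3, pow_pos hy0 4, mul_le_mul_of_nonneg_left hx (pow_pos hy0 2).le,
      mul_le_mul_of_nonneg_left hx (pow_pos hy0 3).le]
  exact h3

section

variable {Ω : Type} {m0 : MeasurableSpace Ω} {μ : Measure Ω} [IsProbabilityMeasure μ]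
  {ℱ : Filtration ℕ m0} {S : ℕ → Set Ω}

theorem ev_s (hS : ∀ n, MeasurableSet[ℱ n] (S n)) (s : ℝ) :
    ∀ᵐ ω ∂μ, ∀ᶠ x : ℕ in atTop, ∀ k ≤ x,
      ∑ j ∈ range k, (s * In S (x + j + 1) ω - (Real.exp s - 1) * Pr μ ℱ S (x + j) ω) < 4 * Real.log x := by
  set E : ℕ → Set Ω := fun x => ⋃ k ∈ range (x + 1), {ω | 4 * Real.log x ≤
    ∑ j ∈ range k, (s * In S (x + j + 1) ω - (Real.exp s - 1) * Pr μ ℱ S (x + j) ω)} with hE
  have h1 : ∀ x, μ (E x) ≤ ENNReal.ofReal (((x : ℝ) + 1) * Real.exp (-(4 * Real.log x))) := by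
    intro x
    calc μ (E x) ≤ ∑ k ∈ range (x + 1), μ {ω | 4 * Real.log x ≤
          ∑ j ∈ range k, (s * In S (x + j + 1) ω - (Real.exp s - 1) * Pr μ ℱ S (x + j) ω)} :=
          measure_biUnion_finset_le _ _
      _ ≤ ∑ k ∈ range (x + 1), ENNReal.ofReal (Real.exp (-(4 * Real.log x))) :=
          sum_le_sum fun k _ => W_tail hS s _ x k
      _ = ENNReal.ofReal (((x : ℝ) + 1) * Real.exp (-(4 * Real.log x))) := by
          rw [sum_const, card_range, nsmul_eq_mul, ENNReal.ofReal_mul (by positivity)]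
          congr 1
          rw [show ((x : ℝ) + 1) = ((x + 1 : ℕ) : ℝ) by push_cast; ring, ENNReal.ofReal_natCast]
  have h2 : ∑' x, μ (E x) ≠ ⊤ :=
    ne_top_of_le_ne_top summ.tsum_ofReal_ne_top (ENNReal.tsum_le_tsum h1)
  filter_upwards [ae_eventually_notMem h2] with ω hω
  filter_upwards [hω] with x hx k hk
  by_contra hcon
  apply hx
  rw [hE]
  simp only [Set.mem_iUnion]
  exact ⟨k, mem_range.2 (by omega), not_lt.1 hcon⟩

/-- the window law -/
theorem window (hS : ∀ n, MeasurableSet[ℱ n] (S n)) :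
    ∀ᵐ ω ∂μ, ∀ i : ℕ, ∀ᶠ x : ℕ in atTop, ∀ k ≤ x,
      |∑ j ∈ range k, In S (x + j + 1) ω - ∑ j ∈ range k, Pr μ ℱ S (x + j) ω| ≤
        1 / (i + 1) * ∑ j ∈ range k, Pr μ ℱ S (x + j) ω + 4 * (i + 1) * Real.log x := by
  have ha : ∀ᵐ ω ∂μ, ∀ i : ℕ, ∀ᶠ x : ℕ in atTop, ∀ k ≤ x,
      ∑ j ∈ range k, ((1 / ((i : ℝ) + 1)) * In S (x + j + 1) ω -
        (Real.exp (1 / ((i : ℝ) + 1)) - 1) * Pr μ ℱ S (x + j) ω) < 4 * Real.log x :=
    ae_all_iff.2 fun i => ev_s hS _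
  have hb : ∀ᵐ ω ∂μ, ∀ i : ℕ, ∀ᶠ x : ℕ in atTop, ∀ k ≤ x,
      ∑ j ∈ range k, ((-(1 / ((i : ℝ) + 1))) * In S (x + j + 1) ω -
        (Real.exp (-(1 / ((i : ℝ) + 1))) - 1) * Pr μ ℱ S (x + j) ω) < 4 * Real.log x :=
    ae_all_iff.2 fun i => ev_s hS _
  have hP : ∀ᵐ ω ∂μ, ∀ n, 0 ≤ Pr μ ℱ S n ω ∧ Pr μ ℱ S n ω ≤ 1 := ae_all_iff.2 fun n => Pr_bd hS n
  filter_upwards [ha, hb, hP] with ω h1 h2 h3 i
  filter_upwards [h1 i, h2 i, eventually_ge_atTop 1] with x g1 g2 hx k hk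
  have k1 := g1 k hk
  have k2 := g2 k hk
  rw [sum_sub_distrib, ← mul_sum, ← mul_sum] at k1 k2
  set N : ℝ := ∑ j ∈ range k, In S (x + j + 1) ω with hN
  set P : ℝ := ∑ j ∈ range k, Pr μ ℱ S (x + j) ω with hPd
  have hP0 : 0 ≤ P := sum_nonneg fun j _ => (h3 _).1
  set i1 : ℝ := (i : ℝ) + 1 with hi1
  have hi : 1 ≤ i1 := by rw [hi1]; linarith [Nat.cast_nonneg (α := ℝ) i]
  have hi0 : 0 < i1 := by linarith
  set σ : ℝ := 1 / i1 with hσ
  have hσ0 : 0 < σ := by positivity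
  have hσ1 : σ ≤ 1 := by rw [hσ, div_le_one hi0]; exact hi
  have hσi : σ * i1 = 1 := by rw [hσ]; field_simp
  have hlx : 0 ≤ Real.log x := Real.log_natCast_nonneg x
  have e1 := abs_le.1 (Real.abs_exp_sub_one_sub_id_le (x := σ) (by rw [abs_of_pos hσ0]; exact hσ1))
  have e2 := abs_le.1 (Real.abs_exp_sub_one_sub_id_le (x := -σ) (by rw [abs_neg, abs_of_pos hσ0]; exact hσ1))
  have f1 : (Real.exp σ - 1) * P ≤ (σ + σ ^ 2) * P := mul_le_mul_of_nonneg_right (by linarith [e1.2]) hP0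
  have f2 : (Real.exp (-σ) - 1) * P ≤ (-σ + σ ^ 2) * P := mul_le_mul_of_nonneg_right (by nlinarith [e2.2]) hP0
  have a1 : σ * (N - P) ≤ σ * (σ * P + 4 * i1 * Real.log x) := by
    have : σ * (4 * i1 * Real.log x) = 4 * Real.log x := by
      calc σ * (4 * i1 * Real.log x) = 4 * (σ * i1) * Real.log x := by ring
        _ = 4 * Real.log x := by rw [hσi]; ring
    nlinarith
  have a2 : σ * (P - N) ≤ σ * (σ * P + 4 * i1 * Real.log x) := by
    have : σ * (4 * i1 * Real.log x) = 4 * Real.log x := by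
      calc σ * (4 * i1 * Real.log x) = 4 * (σ * i1) * Real.log x := by ring
        _ = 4 * Real.log x := by rw [hσi]; ring
    nlinarith
  have b1 := le_of_mul_le_mul_left a1 hσ0
  have b2 := le_of_mul_le_mul_left a2 hσ0
  rw [abs_le]
  constructor <;> linarith

end

end Pool.Agent.D0H68.SD
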